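import Pool.Agent.R847.SX.Cpx

/-!
# MP_295d38_ag: Dynamical Mordell-Lang for curves in affine varieties

Let `X ⊆ 𝔸^{N+1}` be a closed subvariety (over `ℂ`, possibly reducible) and let
`f = (f_0, …, f_N) : X → X` be given by polynomials of degree at most `d`, `d ≥ 2`, with algebraic
coefficients. Let `F = (F_0, …, F_N)` be the forms of degree `d` of the `f_i`, and assume that they
have no common zero but `0` on the cone `X_∞` over the points at infinity of `X`. So `f` extends to a
finite endomorphism of the closure of `X` in `ℙ^{N+1}` that is polarised by `O(1)`, the boundary is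
totally invariant, and the extension is `F` on the boundary. The equations of the cone `X_∞` are the
leading forms of the polynomials that vanish on `X`; they define it as a scheme.

**Theorem.** Let `V ⊆ X` be closed (over `ℂ`) of dimension at most one. If `F : X_∞ → X_∞` is
unramified at all points of the cycles of `F` that pass through a point at infinity of `V`, then
`{n : f^n(a) ∈ V}` is a finite union of arithmetic progressions for all `a ∈ X` with algebraic
coordinates.

Unramified means that the differential of `F` is injective on the tangent space of the scheme `X_∞`.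
There is no condition on the points at infinity of `V` that are not periodic, none on the orbits of
the ramification points, and none on the singularities of `X` (`X` need not be irreducible or normal,
and no extension of `f` to `𝔸^{N+1}` is assumed to be good in any sense). In particular the
Dynamical Mordell-Lang property holds for all `V` of dimension at most one and all algebraic points
if `F : X_∞ → X_∞` has no periodic ramification point.

The proof reduces this to the case `X = 𝔸^{M}` (`MP_b15c9e_ag/CurvesOffCriticalCycles`, which is
proven there by Schmidt's subspace theorem). The polynomials `f_i` are not unique and in general no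
choice gives a map of `𝔸^{N+1}` that extends to `ℙ^{N+1}`, nor is it unramified at the given cycles
as a map of `𝔸^{N+1}`.

(1) One replaces `X` by the Zariski closure of the orbit of `a`, which is defined over the number
field `k` of `a` and `f`; the assumptions pass to it.

(2) Let `n` be large, `J` the ideal of `k[x_0, …, x_N]` that is generated by the leading forms of the
polynomials that vanish on `X`, `Q` the (finite) set of the points of the relevant cycles. By prime
avoidance and Krull's height theorem one finds for forms `G_0, …, G_N` of a large degree, which have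
no common zero on `X_∞` but `0`, forms `H_i ∈ J` of the same degree with prescribed values of the
differentials modulo `J^2` at the points of `Q` so that `G_i + H_i` have no common zero at all but
`0`. So an iterate of `f` is the restriction of a polynomial map of `𝔸^{N+1}` that extends to
`ℙ^{N+1}` and that is unramified at the points of `Q`, by a linear algebra argument: the
differentials of the elements of `J` at a point of `Q` are all the functionals that vanish on the
tangent space of `X_∞`.

(3) The points at infinity of `V` that are periodic lie on cycles in `Q` for which the determinant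
of the differential of the new map does not vanish, so the theorem for `𝔸^{N+1}` applies to each of
the points `f^j(a)` for the iterate.
-/

set_option autoImplicit false

open MvPolynomial

namespace Pool.Agent.Results.MP_295d38_ag.CurvesInAffineVarieties

variable {N : ℕ}

/-- The polynomial self-map of `ℂ^{N+1}`. -/
noncomputable def selfMap (f : Fin (N + 1) → MvPolynomial (Fin (N + 1)) ℂ) (x : Fin (N + 1) → ℂ) :
    Fin (N + 1) → ℂ :=
  fun i => eval x (f i)

/-- The self-map of `ℂ^{N+1}` given by the forms of degree `d`. -/
noncomputable def topMap (d : ℕ) (f : Fin (N + 1) → MvPolynomial (Fin (N + 1)) ℂ)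
    (x : Fin (N + 1) → ℂ) : Fin (N + 1) → ℂ :=
  fun i => eval x (homogeneousComponent d (f i))

/-- The common zeros of a set of complex polynomials. -/
def zeros (V : Set (MvPolynomial (Fin (N + 1)) ℂ)) : Set (Fin (N + 1) → ℂ) :=
  {z | ∀ g ∈ V, eval z g = 0}

/-- The zero set has dimension at most one: any two coordinates satisfy a polynomial equation. -/
def DimLeOne (V : Set (MvPolynomial (Fin (N + 1)) ℂ)) : Prop :=
  ∀ i j, ∃ P : MvPolynomial (Fin 2) ℂ, P ≠ 0 ∧ ∀ z ∈ zeros V, eval ![z i, z j] P = 0

/-- All coefficients are algebraic numbers. -/
def AlgCoeff (f : Fin (N + 1) → MvPolynomial (Fin (N + 1)) ℂ) : Prop :=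
  ∀ i κ, IsAlgebraic ℚ (coeff κ (f i))

/-- The vectors whose direction is a point at infinity of the zero set: the leading form of each
polynomial vanishing on the zero set vanishes at `y`. -/
def AtInfinity (V : Set (MvPolynomial (Fin (N + 1)) ℂ)) (y : Fin (N + 1) → ℂ) : Prop :=
  ∀ g : MvPolynomial (Fin (N + 1)) ℂ, (∀ z ∈ zeros V, eval z g = 0) →
    eval y (homogeneousComponent g.totalDegree g) = 0

/-- The polynomials `f` have degree at most `d`, map the variety of `X` to itself, and their forms of
degree `d` have no common zero but `0` on the cone over the points at infinity of the variety. -/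
def RegularOn (d : ℕ) (X : Set (MvPolynomial (Fin (N + 1)) ℂ))
    (f : Fin (N + 1) → MvPolynomial (Fin (N + 1)) ℂ) : Prop :=
  (∀ i, (f i).totalDegree ≤ d) ∧ (∀ z ∈ zeros X, selfMap f z ∈ zeros X) ∧
    ∀ z, AtInfinity X z → topMap d f z = 0 → z = 0

/-- The derivative of the polynomial `p` at `y` in the direction `h`. -/
noncomputable def deriv (p : MvPolynomial (Fin (N + 1)) ℂ) (y h : Fin (N + 1) → ℂ) : ℂ :=
  ∑ j, eval y (pderiv j p) * h j

/-- The vectors `h` that are tangent at `y` to the scheme of the leading forms of the polynomials
that vanish on the variety of `X`. -/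
def TangentAtInfinity (X : Set (MvPolynomial (Fin (N + 1)) ℂ)) (y h : Fin (N + 1) → ℂ) : Prop :=
  ∀ g : MvPolynomial (Fin (N + 1)) ℂ, (∀ z ∈ zeros X, eval z g = 0) →
    deriv (homogeneousComponent g.totalDegree g) y h = 0

/-- The map given by the forms of degree `d` is unramified at `y` as a map of the cone over the
points at infinity: its differential is injective on the tangent space. -/
def UnramifiedAt (d : ℕ) (X : Set (MvPolynomial (Fin (N + 1)) ℂ))
    (f : Fin (N + 1) → MvPolynomial (Fin (N + 1)) ℂ) (y : Fin (N + 1) → ℂ) : Prop :=
  ∀ h : Fin (N + 1) → ℂ, TangentAtInfinity X y h →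
    (∀ i, deriv (homogeneousComponent d (f i)) y h = 0) → h = 0

/-- No point at infinity `[z]` of `V` is periodic under the map `[z] ↦ [F(z)]` of the boundary of
`X` with a ramification point in its cycle. -/
def OffRamifiedCycles (d : ℕ) (X : Set (MvPolynomial (Fin (N + 1)) ℂ))
    (f : Fin (N + 1) → MvPolynomial (Fin (N + 1)) ℂ)
    (V : Set (MvPolynomial (Fin (N + 1)) ℂ)) : Prop :=
  ∀ z : Fin (N + 1) → ℂ, z ≠ 0 → AtInfinity V z → ∀ l ≥ 1, ∀ c : ℂ, c ≠ 0 →
    (topMap d f)^[l] z = c • z → ∀ t, UnramifiedAt d X f ((topMap d f)^[t] z)

/-- The return set of the point `a`. -/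
def returnSet (f : Fin (N + 1) → MvPolynomial (Fin (N + 1)) ℂ)
    (V : Set (MvPolynomial (Fin (N + 1)) ℂ)) (a : Fin (N + 1) → ℂ) : Set ℕ :=
  {n | (selfMap f)^[n] a ∈ zeros V}

/-- A finite union of arithmetic progressions `{a + k n}`, where `k = 0` is allowed. -/
def FiniteUnionAP (A : Set ℕ) : Prop :=
  ∃ T : Finset (ℕ × ℕ), A = {n : ℕ | ∃ q ∈ T, ∃ m : ℕ, n = q.1 * m + q.2}

/-- **Dynamical Mordell-Lang for curves in affine varieties and polarised endomorphisms with a
totally invariant boundary.** -/
theorem result (N d : ℕ) (hd : 2 ≤ d) (X : Set (MvPolynomial (Fin (N + 1)) ℂ))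
    (f : Fin (N + 1) → MvPolynomial (Fin (N + 1)) ℂ) (halg : AlgCoeff f) (hf : RegularOn d X f)
    (V : Set (MvPolynomial (Fin (N + 1)) ℂ)) (_hVX : zeros V ⊆ zeros X) (hV : DimLeOne V)
    (hVf : OffRamifiedCycles d X f V)
    (a : Fin (N + 1) → ℂ) (haX : a ∈ zeros X) (ha : ∀ i, IsAlgebraic ℚ (a i)) :
    FiniteUnionAP (returnSet f V a) :=
  Pool.Agent.R847.SX.dml_XC d hd f hf.1 halg X hf.2.1
    (fun z hz h0 => hf.2.2 z hz (funext h0)) V hV hVf
    (fun n => (selfMap f)^[n] a) (fun n i => by
      simp only [Function.iterate_succ_apply', selfMap]) ha haX

end Pool.Agent.Results.MP_295d38_ag.CurvesInAffineVarieties
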