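import Pool.Agent.R847.QP.Gap

/-!
# MP_295d38_ag: a gap principle for return sets on all quasiprojective varieties

**Theorem, first part.** Let `X` be any quasiprojective variety over `ℂ`, `Φ` any endomorphism of `X`
and `V` a closed subset. Call a point `z` of `X` *trapped* if `V` contains `z, Φ^m(z), Φ^(2m)(z), …`
for some `m ≥ 1`. If no point of `X` is trapped (that is, no return set contains an infinite
arithmetic progression), then for every point `α` of `X` the return set
`{n : Φ^n(α) ∈ V}` is exponentially sparse: there are `M` and `δ > 0` such that for all large `n` it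
has at most `M` elements between `n` and `exp (δ n)`. So it has `O(log* x)` elements up to `x`, where
`log*` is the number of iterations of the logarithm which are needed to bring `x` below `1`. (The
conjecture says that it is finite.)

The variety `X` need not be smooth or irreducible, `Φ` may be ramified, and no
assumption is made on the position of the orbit with respect to the ramification. Varieties, maps and
closed subsets are given as in the frozen statement `S00091` of this problem.

**Second part.** Let `f` be a polynomial self-map of `ℂ^n` and `V` the zero set of a set `S` of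
polynomials. Suppose that only finitely many points are trapped, and that `f` is etale at `f^k(z)`
for every trapped point `z` and all large `k`. Then for all points `a` the return set is a finite
union of arithmetic progressions or exponentially sparse.

The proof. By an explicit form of the trick of Jouanolou, `X` is the image of a closed subset `Y` of
an affine space under a map with affine fibres, and `Φ` lifts to a polynomial map: the points of `Y`
are the pairs of an idempotent matrix of rank one, whose image is the point of `X`, and of a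
certificate that the point of `X` satisfies the inequalities which define `X`; both lift by the
Nullstellensatz. For polynomial self-maps of the affine space: for a prime `p` and an isomorphism of
`ℂ` with the algebraic closure of `ℚ_p` such that everything has good reduction, some iterate `H` of
the map acts on a residue polydisc of the orbit, in scaled coordinates, by a polynomial map which is
idempotent modulo `p²`: for the comorphism `T` one has `T (T - 1) ≡ 0` modulo `p²`. Thus the `j`-th
difference at `n` of the values of any polynomial along the orbit is divisible by `p^(2 min(j,n))`.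
It follows that the orbit has a shadow: a point `y` whose orbit is `p`-adically analytic in the time
and such that the distance of the two orbits at the time `n` is at most `p^(-2n)`. If the shadow leaves
`V` then the return times are approximate zeros of a non zero analytic function of the time, and a
quantitative form of the bound of Strassmann gives the gaps. If the shadow stays in `V` then it is
trapped.
-/

set_option autoImplicit false

namespace Pool.Agent.Results.MP_295d38_ag.GapPrinciple

/-- A set of natural numbers is exponentially sparse if there are `M` and `δ > 0` such that for all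
large `n` it has at most `M` elements between `n` and `exp (δ n)`. -/
def ExpSparse (A : Set ℕ) : Prop :=
  ∃ (M : ℕ) (δ : ℝ), 0 < δ ∧
    ∀ᶠ n : ℕ in Filter.atTop, {m ∈ A | n ≤ m ∧ (m : ℝ) ≤ Real.exp (δ * n)}.ncard ≤ M

/-- A finite union of arithmetic progressions `{a + r k}`, where `r = 0` is allowed. -/
def FiniteUnionAP (A : Set ℕ) : Prop :=
  ∃ T : Finset (ℕ × ℕ), A = {n : ℕ | ∃ t ∈ T, ∃ k : ℕ, n = t.1 + t.2 * k}

/-- The self-map of `ℂ^r` given by `r` polynomials. -/
noncomputable def polyMap {r : ℕ} (f : Fin r → MvPolynomial (Fin r) ℂ) (x : Fin r → ℂ) :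
    Fin r → ℂ :=
  fun i => MvPolynomial.eval x (f i)

/-- The return set of `z` to the closed set of the common zeros of the members of `S`. -/
def returnSet {r : ℕ} (f : Fin r → MvPolynomial (Fin r) ℂ) (S : Set (MvPolynomial (Fin r) ℂ))
    (z : Fin r → ℂ) : Set ℕ :=
  {n | ∀ g ∈ S, MvPolynomial.eval ((polyMap f)^[n] z) g = 0}

/-- The return set of `z` contains `0, m, 2m, …` for some `m ≥ 1`. -/
def Trapped {r : ℕ} (f : Fin r → MvPolynomial (Fin r) ℂ) (S : Set (MvPolynomial (Fin r) ℂ))
    (z : Fin r → ℂ) : Prop :=
  ∃ m, 0 < m ∧ ∀ t : ℕ, m * t ∈ returnSet f S z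

/-- The Jacobian determinant of `f` does not vanish at `f^n(z)` for all large `n`. -/
def EventuallyEtale {r : ℕ} (f : Fin r → MvPolynomial (Fin r) ℂ) (z : Fin r → ℂ) : Prop :=
  ∃ n₀, ∀ n, n₀ ≤ n →
    (Matrix.of fun i j => MvPolynomial.eval ((polyMap f)^[n] z) (MvPolynomial.pderiv j (f i))).det ≠ 0

lemma expSparse_of {A : Set ℕ} (h : Pool.Agent.R847.Gap.ExpSparse A) : ExpSparse A := by
  obtain ⟨M, δ, n₁, hδ, hM⟩ := h
  refine ⟨M, δ, hδ, ?_⟩
  filter_upwards [Filter.eventually_ge_atTop n₁] with n hn
  have hfin : {m ∈ A | n ≤ m ∧ (m : ℝ) ≤ Real.exp (δ * n)}.Finite := by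
    apply (Set.finite_Iic ⌊Real.exp (δ * n)⌋₊).subset
    intro m hm
    exact Nat.le_floor hm.2.2
  rw [Set.ncard_eq_toFinset_card _ hfin]
  apply hM n hn
  intro m hm
  rw [Set.Finite.mem_toFinset] at hm
  exact hm

/-- **Gap principle for endomorphisms of quasiprojective varieties.** -/
theorem result :
    (∀ (N : ℕ) (X : Set (Projectivization ℂ (Fin (N + 1) → ℂ))),
      (∃ A B : Set (MvPolynomial (Fin (N + 1)) ℂ),
        (∀ F ∈ A, ∃ d : ℕ, F.IsHomogeneous d) ∧ (∀ F ∈ B, ∃ d : ℕ, F.IsHomogeneous d) ∧
        ∀ p : Projectivization ℂ (Fin (N + 1) → ℂ), p ∈ X ↔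
          ((∀ F ∈ A, MvPolynomial.eval p.rep F = 0) ∧ ∃ F ∈ B, MvPolynomial.eval p.rep F ≠ 0)) →
      ∀ Φ : Projectivization ℂ (Fin (N + 1) → ℂ) → Projectivization ℂ (Fin (N + 1) → ℂ),
        (∀ x ∈ X, Φ x ∈ X) →
        (∀ x ∈ X, ∃ (d e : ℕ) (F : Fin (N + 1) → MvPolynomial (Fin (N + 1)) ℂ)
            (g : MvPolynomial (Fin (N + 1)) ℂ),
            (∀ i, (F i).IsHomogeneous d) ∧ g.IsHomogeneous e ∧ MvPolynomial.eval x.rep g ≠ 0 ∧
            ∀ y ∈ X, MvPolynomial.eval y.rep g ≠ 0 →
              (fun i : Fin (N + 1) => MvPolynomial.eval y.rep (F i)) ≠ 0 ∧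
              (fun i : Fin (N + 1) => MvPolynomial.eval y.rep (F i)) ∈ (Φ y).submodule) →
        ∀ V : Set (Projectivization ℂ (Fin (N + 1) → ℂ)),
          (∃ C : Set (MvPolynomial (Fin (N + 1)) ℂ),
            (∀ F ∈ C, ∃ d : ℕ, F.IsHomogeneous d) ∧
            ∀ p : Projectivization ℂ (Fin (N + 1) → ℂ),
              p ∈ V ↔ ∀ F ∈ C, MvPolynomial.eval p.rep F = 0) →
          (∀ z ∈ X, ¬ ∃ m : ℕ, 0 < m ∧ ∀ t : ℕ, Φ^[m * t] z ∈ V) →
          ∀ α ∈ X, ExpSparse {n : ℕ | Φ^[n] α ∈ V}) ∧
    (∀ (r : ℕ) (f : Fin r → MvPolynomial (Fin r) ℂ) (S : Set (MvPolynomial (Fin r) ℂ)),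
      {z | Trapped f S z}.Finite → (∀ z, Trapped f S z → EventuallyEtale f z) →
      ∀ a : Fin r → ℂ, FiniteUnionAP (returnSet f S a) ∨ ExpSparse (returnSet f S a)) := by
  constructor
  · rintro N X ⟨A, B, hA, hB, hX⟩ Φ hΦ hreg V ⟨C, hC, hV⟩ hno α hα
    have h := Pool.Agent.R847.QP.Reg.gap ⟨X, A, B, hA, hB, hX, Φ, hΦ, hreg⟩ C hC (by
      intro p hp m hm
      by_contra hcon
      push Not at hcon
      exact hno p hp ⟨m, hm, fun t => (hV _).2 (hcon t)⟩) α hα
    have h2 := expSparse_of h
    have hset : {n : ℕ | Φ^[n] α ∈ V} =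
        {n : ℕ | ∀ F ∈ C, MvPolynomial.eval (Φ^[n] α).rep F = 0} := by
      ext n
      exact hV _
    rw [hset]
    exact h2
  · intro r f S hfin het a
    rcases Pool.Agent.R847.Gap.affine_gap f S {z | Trapped f S z} hfin
      (fun z hz => ⟨hz, het z hz⟩) a with ⟨T, hT⟩ | h
    · left
      refine ⟨T.image Prod.swap, ?_⟩
      have : returnSet f S a =
          {n : ℕ | ∀ g ∈ S, MvPolynomial.eval ((Pool.Agent.H936R2.pt f)^[n] a) g = 0} := rfl
      rw [this, hT]
      ext n
      constructor
      · rintro ⟨q, hq, m, rfl⟩
        exact ⟨q.swap, Finset.mem_image_of_mem _ hq, m, by simp [add_comm]⟩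
      · rintro ⟨q, hq, m, rfl⟩
        obtain ⟨q', hq', rfl⟩ := Finset.mem_image.1 hq
        exact ⟨q', hq', m, by simp [add_comm]⟩
    · right
      exact expSparse_of h

end Pool.Agent.Results.MP_295d38_ag.GapPrinciple
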