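import Pool.Agent.R948.QRd

/-!
# The dynamical Mordell-Lang conjecture is the Skolem-Mahler-Lech statement for quadratic recurrences

The known case of the conjecture is the linear shift map, that is, the theorem of Skolem, Mahler and
Lech on the zeros of sequences with `u (n + m) = c_1 u (n + m - 1) + … + c_m u (n)`. We consider the
simplest nonlinear recurrences

  `u (n + m) = ∑ u (n + i) u (n + j)`, the sum over the pairs `(i, j)` of a set `S`, `i < j < m`,

all coefficients of which are `0` or `1` (`IsQuadratic m S u`), with arbitrary complex initial values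
`u 0, …, u (m - 1)`. Such a sequence is the sequence of the first coordinates of an orbit of the
self-map `(x_1, …, x_m) ↦ (x_2, …, x_m, ∑ x_{i+1} x_{j+1})` of the affine space.

**Theorem.** 1. Q1 (`DynamicalMordellLang`, word for word the frozen statement `S00091`: all
endomorphisms of all quasiprojective varieties over `ℂ`, all closed subsets) is true if and only if
for all these sequences the set `{n : u n = 0}` is a finite union of arithmetic progressions.

2. Every return set `{n : Φ^n(α) ∈ V}` of an endomorphism `Φ` of a quasiprojective variety over `ℂ`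
is equal to `{n : u (k n + c) = 0 for all c ∈ C}` for such a sequence `u`, some `k ≥ 1` and some
finite set `C` of residues.

The proof. By the trick of Jouanolou (in the form of `Pool.Agent.R847.QP.Lift`, helper847) the return
set is one of a polynomial self-map of an affine space, for a finite set of equations. The equations
become coordinates. The products in the polynomials are computed in stages, by a network in which each
coordinate is a sum of distinct products of two coordinates (`Pool.Agent.R948.QRb`); the constants
are coordinates. The values of the network are written in the sparse sequence `u`, at the positions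
`2 ^ j` of blocks of a large length; all other members of the sequence are zero. As the difference of
two powers of two determines both, the product of two members of `u` at a given distance is zero
except at the right time (`Pool.Agent.R948.QRa`).
-/

set_option autoImplicit false

open Pool.Agent.R948.QR

/-- **The dynamical Mordell-Lang conjecture is the Skolem-Mahler-Lech statement for quadratic
recurrences.** -/
theorem Pool.Agent.Results.MP_295d38_ag.QuadraticRecurrences.result :
    (DynamicalMordellLang ↔
      ∀ (m : ℕ) (S : Finset (ℕ × ℕ)) (u : ℕ → ℂ), IsQuadratic m S u → FinAP {n | u n = 0}) ∧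
    ∀ (N : ℕ) (X : Set (Projectivization ℂ (Fin (N + 1) → ℂ))),
      (∃ A B : Set (MvPolynomial (Fin (N + 1)) ℂ),
        (∀ F ∈ A, ∃ d : ℕ, F.IsHomogeneous d) ∧ (∀ F ∈ B, ∃ d : ℕ, F.IsHomogeneous d) ∧
        ∀ p : Projectivization ℂ (Fin (N + 1) → ℂ), p ∈ X ↔
          ((∀ F ∈ A, MvPolynomial.eval p.rep F = 0) ∧ ∃ F ∈ B, MvPolynomial.eval p.rep F ≠ 0)) →
      ∀ Φ : Projectivization ℂ (Fin (N + 1) → ℂ) → Projectivization ℂ (Fin (N + 1) → ℂ),
        (∀ x ∈ X, Φ x ∈ X) →
        (∀ x ∈ X, ∃ (d e : ℕ) (F : Fin (N + 1) → MvPolynomial (Fin (N + 1)) ℂ)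
            (g : MvPolynomial (Fin (N + 1)) ℂ),
            (∀ i, (F i).IsHomogeneous d) ∧ g.IsHomogeneous e ∧ MvPolynomial.eval x.rep g ≠ 0 ∧
            ∀ y ∈ X, MvPolynomial.eval y.rep g ≠ 0 →
              (fun i : Fin (N + 1) => MvPolynomial.eval y.rep (F i)) ≠ 0 ∧
              (fun i : Fin (N + 1) => MvPolynomial.eval y.rep (F i)) ∈ (Φ y).submodule) →
        ∀ α ∈ X, ∀ V : Set (Projectivization ℂ (Fin (N + 1) → ℂ)),
          (∃ C : Set (MvPolynomial (Fin (N + 1)) ℂ),
            (∀ F ∈ C, ∃ d : ℕ, F.IsHomogeneous d) ∧
            ∀ p : Projectivization ℂ (Fin (N + 1) → ℂ),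
              p ∈ V ↔ ∀ F ∈ C, MvPolynomial.eval p.rep F = 0) →
          ∃ (m : ℕ) (S : Finset (ℕ × ℕ)) (u : ℕ → ℂ) (k : ℕ) (C : Finset ℕ),
            IsQuadratic m S u ∧ 0 < k ∧
            {n : ℕ | Φ^[n] α ∈ V} = {n : ℕ | ∀ c ∈ C, u (k * n + c) = 0} :=
  ⟨dml_iff, fun N X hX Φ hΦ hreg α hα V hV => return_sets N X hX Φ hΦ hreg α hα V hV⟩
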