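import Pool.Agent.R370.TZ.W

/-!
# The dynamical Mordell-Lang conjecture for transcendental points

Let `X` be a quasi-projective variety over an algebraically closed field `K`, `Φ` an endomorphism of `X`
and `V` a closed subset of `X` of dimension at most `d`, and let `k` be an algebraically closed subfield
of `K` over which `Φ` and `V` are defined (for example the algebraic closure of the field generated by
the coefficients of their equations). The transcendence degree over `k` of a point `α` is the dimension
of the smallest closed subset over `k` which contains it.

* If all points of the orbit of `α` which lie in `V` have transcendence degree at least `d`, then the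
  return set is a finite union of arithmetic progressions. Indeed the closures over `k` of these points
  are components of `V`, and so if there are infinitely many return times then two of the closures
  coincide, and hence the closures of the points of the orbit are eventually periodic.
* So Q1 for `Φ`, `V` and all points over `K` is equivalent to Q1 for `Φ`, `V` and the points of
  transcendence degree less than `d`.
* For curves (`d = 1`): Q1 for `Φ`, `V` and all points over `K` is equivalent to Q1 for `Φ`, `V` and the
  points over `k`.
-/

namespace Pool.Agent.Results.MP_295d38_ag.TranscendentalOrbits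

open Pool.Agent.R948.ZP Pool.Agent.R370.TZ

/-- Q1 for points of transcendence degree at least `dim V` over a field of definition of `V` and
`Φ`, and its consequences. -/
theorem result {k K : Type} [Field k] [Field K] [Algebra k K] [IsAlgClosed k] [IsAlgClosed K]
    {ι : Type} [Fintype ι] {X : Set (ι → K)} (hX : QuasiProjective X) {Φ : (ι → K) → (ι → K)}
    (hΦ : RegularOver k X Φ) {V : Set (ι → K)} (hV : Closed X V) (hVd : Def k V) {d : ℤ}
    (hd : ∀ A, Subvariety X A → A ⊆ V → dim A ≤ d) :
    (∀ α ∈ X, (∀ n, Φ^[n] α ∈ V → d ≤ dim (clo k X (line (Φ^[n] α)))) →
      IsUnionOfProgressions {n | Φ^[n] α ∈ V}) ∧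
    ((∀ α ∈ X, IsUnionOfProgressions {n | Φ^[n] α ∈ V}) ↔
      ∀ α ∈ V, dim (clo k X (line α)) < d → IsUnionOfProgressions {n | Φ^[n] α ∈ V}) ∧
    (d = 1 → ((∀ α ∈ X, IsUnionOfProgressions {n | Φ^[n] α ∈ V}) ↔
      ∀ a : ι → k, (fun i => algebraMap k K (a i)) ∈ V →
        IsUnionOfProgressions {n | Φ^[n] (fun i => algebraMap k K (a i)) ∈ V})) := by
  refine ⟨fun α hα h => return_set hX hΦ hα hV hVd hd h, return_iff hX hΦ hV hVd hd, ?_⟩
  rintro rfl
  exact return_iff_curves hX hΦ hV hVd hd

end Pool.Agent.Results.MP_295d38_ag.TranscendentalOrbits
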